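import Mathlib
import Pool.Agent.H256R2.SC.G1

set_option autoImplicit false

/-! # Greedy families of sums of powers just above a number (project SQ, helper814) -/

namespace Pool.Agent.H814.SQ

open Finset

open scoped Classical

theorem pow_diff_le (m : ℕ) {x y : ℝ} (hy : 0 ≤ y) (hxy : y ≤ x) :
    x ^ (m + 1) - y ^ (m + 1) ≤ (m + 1) * (x - y) * x ^ m := by
  induction m with
  | zero => simp
  | succ m ih =>
    have hx : 0 ≤ x := hy.trans hxy
    have h1 : y ^ (m + 1) ≤ x ^ (m + 1) := pow_le_pow_left₀ hy hxy _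
    have h2 : x * (x ^ (m + 1) - y ^ (m + 1)) ≤ x * ((m + 1) * (x - y) * x ^ m) :=
      mul_le_mul_of_nonneg_left ih hx
    have h3 : (x - y) * y ^ (m + 1) ≤ (x - y) * x ^ (m + 1) :=
      mul_le_mul_of_nonneg_left h1 (by linarith)
    push_cast
    calc x ^ (m + 1 + 1) - y ^ (m + 1 + 1) =
        x * (x ^ (m + 1) - y ^ (m + 1)) + (x - y) * y ^ (m + 1) := by ring
      _ ≤ x * ((m + 1) * (x - y) * x ^ m) + (x - y) * x ^ (m + 1) := add_le_add h2 h3
      _ = ((m : ℝ) + 1 + 1) * (x - y) * x ^ (m + 1) := by ring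

theorem le_pow_diff (m : ℕ) {x y : ℝ} (hy : 0 ≤ y) (hxy : y ≤ x) :
    (x - y) * x ^ m ≤ x ^ (m + 1) - y ^ (m + 1) := by
  have h1 : y ^ m ≤ x ^ m := pow_le_pow_left₀ hy hxy _
  have h2 : y * y ^ m ≤ y * x ^ m := mul_le_mul_of_nonneg_left h1 hy
  calc (x - y) * x ^ m = x ^ (m + 1) - y * x ^ m := by ring
    _ ≤ x ^ (m + 1) - y * y ^ m := by linarith
    _ = _ := by ring

/-- the points with first coordinate in an interval and the others from a family depending on it -/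
noncomputable def fam (s W : ℕ) (g : ℤ) (F : ℤ → Finset (Fin s → ℤ)) : Finset (Fin (s + 1) → ℤ) :=
  (Ioc g (g + W)).biUnion (fun x => (F x).image (fun y => (Fin.cons x y : Fin (s + 1) → ℤ)))

theorem mem_fam {s W : ℕ} {g : ℤ} {F : ℤ → Finset (Fin s → ℤ)} {z : Fin (s + 1) → ℤ} :
    z ∈ fam s W g F ↔ ∃ x : ℤ, (g < x ∧ x ≤ g + W) ∧ ∃ y ∈ F x, z = Fin.cons x y := by
  unfold fam
  simp only [mem_biUnion, mem_Ioc, mem_image]
  constructor
  · rintro ⟨x, hx, y, hy, rfl⟩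
    exact ⟨x, hx, y, hy, rfl⟩
  · rintro ⟨x, hx, y, hy, rfl⟩
    exact ⟨x, hx, y, hy, rfl⟩

theorem fam_count (s W : ℕ) (g : ℤ) (F : ℤ → Finset (Fin s → ℤ)) (q : ℕ) (hq : 0 < q) (hqW : q ≤ W)
    (hF : ∀ x : ℤ, g < x → x ≤ g + W → ∀ c : Fin s → ℤ,
      ((W : ℝ) / q - 1) ^ s ≤ (((F x).filter (fun y => ∀ j, (q : ℤ) ∣ y j - c j)).card : ℝ) ∧
      (((F x).filter (fun y => ∀ j, (q : ℤ) ∣ y j - c j)).card : ℝ) ≤ ((W : ℝ) / q + 1) ^ s)
    (c : Fin (s + 1) → ℤ) :
    ((W : ℝ) / q - 1) ^ (s + 1) ≤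
      (((fam s W g F).filter (fun y => ∀ j, (q : ℤ) ∣ y j - c j)).card : ℝ) ∧
      (((fam s W g F).filter (fun y => ∀ j, (q : ℤ) ∣ y j - c j)).card : ℝ) ≤
        ((W : ℝ) / q + 1) ^ (s + 1) := by
  have hqR : (0 : ℝ) < q := by exact_mod_cast hq
  have hY : 1 ≤ (W : ℝ) / q := by
    rw [le_div_iff₀ hqR, one_mul]
    exact_mod_cast hqW
  obtain ⟨D, hD⟩ : ∃ D : Finset ℤ, D = (Ioc g (g + W)).filter (fun x => (q : ℤ) ∣ x - c 0) := ⟨_, rfl⟩
  have h1 : (fam s W g F).filter (fun y => ∀ j, (q : ℤ) ∣ y j - c j) =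
      D.biUnion (fun x => ((F x).filter (fun y => ∀ j, (q : ℤ) ∣ y j - c j.succ)).image
        (fun y => (Fin.cons x y : Fin (s + 1) → ℤ))) := by
    ext z
    rw [mem_filter, mem_fam, mem_biUnion]
    constructor
    · rintro ⟨⟨x, hx, y, hy, rfl⟩, h⟩
      refine ⟨x, ?_, ?_⟩
      · rw [hD, mem_filter, mem_Ioc]
        exact ⟨hx, by simpa using h 0⟩
      · rw [mem_image]
        exact ⟨y, mem_filter.2 ⟨hy, fun j => by simpa using h j.succ⟩, rfl⟩
    · rintro ⟨x, hx, hz⟩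
      rw [hD, mem_filter, mem_Ioc] at hx
      rw [mem_image] at hz
      obtain ⟨y, hy, rfl⟩ := hz
      rw [mem_filter] at hy
      refine ⟨⟨x, hx.1, y, hy.1, rfl⟩, fun j => ?_⟩
      refine Fin.cases ?_ (fun j => ?_) j
      · simpa using hx.2
      · simpa using hy.2 j
  have h2 : ((fam s W g F).filter (fun y => ∀ j, (q : ℤ) ∣ y j - c j)).card =
      ∑ x ∈ D, ((F x).filter (fun y => ∀ j, (q : ℤ) ∣ y j - c j.succ)).card := by
    rw [h1, card_biUnion]
    · refine Finset.sum_congr rfl fun x _ => ?_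
      apply card_image_of_injective
      exact Fin.cons_right_injective (α := fun _ => ℤ) x
    · intro x _ x' _ hne
      rw [Function.onFun, Finset.disjoint_left]
      intro z hz hz'
      rw [mem_image] at hz hz'
      obtain ⟨y, _, rfl⟩ := hz
      obtain ⟨y', _, h⟩ := hz'
      apply hne
      have := congrFun h 0
      simpa using this.symm
  have h3 := Pool.Agent.H256R2.SC.LG.count_Ioc g (g + W) (by omega) q hq (c 0)
  have h4 : (((g + W : ℤ) : ℝ) - g) / q = (W : ℝ) / q := by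
    push_cast
    ring
  rw [h4, ← hD] at h3
  obtain ⟨h5, h6⟩ := abs_le.1 h3
  rw [h2]
  push_cast
  constructor
  · have h7 : ∑ x ∈ D, ((W : ℝ) / q - 1) ^ s ≤
        ∑ x ∈ D, (((F x).filter (fun y => ∀ j, (q : ℤ) ∣ y j - c j.succ)).card : ℝ) := by
      refine Finset.sum_le_sum fun x hx => ?_
      rw [hD, mem_filter, mem_Ioc] at hx
      exact (hF x hx.1.1 hx.1.2 (fun j => c j.succ)).1
    refine le_trans ?_ h7
    rw [sum_const, nsmul_eq_mul, pow_succ, mul_comm]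
    exact mul_le_mul_of_nonneg_right (by linarith) (pow_nonneg (by linarith) _)
  · have h7 : ∑ x ∈ D, (((F x).filter (fun y => ∀ j, (q : ℤ) ∣ y j - c j.succ)).card : ℝ) ≤
        ∑ x ∈ D, ((W : ℝ) / q + 1) ^ s := by
      refine Finset.sum_le_sum fun x hx => ?_
      rw [hD, mem_filter, mem_Ioc] at hx
      exact (hF x hx.1.1 hx.1.2 (fun j => c j.succ)).2
    refine h7.trans ?_
    rw [sum_const, nsmul_eq_mul, pow_succ, mul_comm (((W : ℝ) / q + 1) ^ s)]
    exact mul_le_mul_of_nonneg_right (by linarith) (pow_nonneg (by linarith) _)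

end Pool.Agent.H814.SQ
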