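import Pool.Agent.W147.PS.Scale
import Pool.Agent.H814.SQ.Fam

set_option autoImplicit false

/-! # Sizes (project SQ, helper814) -/

namespace Pool.Agent.H814.SQ

open Filter
open Pool.Agent.W147.PS (ff ff_compare ev_pow)

/-- the record scale is small -/
theorem ff_small (κ : ℝ) (hk : 0 ≤ κ) : ∀ᶠ M : ℝ in atTop, κ * ff M ≤ M / 4 := by
  have t1 : Tendsto Real.log atTop atTop := Real.tendsto_log_atTop
  have t2 : Tendsto (fun M : ℝ => Real.log (Real.log M)) atTop atTop := t1.comp t1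
  have t3 : Tendsto (fun M : ℝ => Real.log (Real.log (Real.log M))) atTop atTop := t1.comp t2
  have h0 := (Real.isLittleO_pow_log_id_atTop (n := 2)).def (show 0 < 1 / (16 * (κ + 1)) by positivity)
  filter_upwards [eventually_ge_atTop 1, t1.eventually_ge_atTop 4, t2.eventually_ge_atTop 4,
    t3.eventually_ge_atTop 4, h0] with M hM m1 m2 m3 hlog
  obtain ⟨L1, hL1⟩ : ∃ L1, L1 = Real.log M := ⟨_, rfl⟩
  obtain ⟨L2, hL2⟩ : ∃ L2, L2 = Real.log L1 := ⟨_, rfl⟩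
  obtain ⟨L3, hL3⟩ : ∃ L3, L3 = Real.log L2 := ⟨_, rfl⟩
  rw [← hL1] at m1 m2 m3 hlog
  rw [← hL2] at m2 m3
  rw [← hL3] at m3
  have a4 : Real.log L3 ≤ L3 := by
    have := Real.log_le_sub_one_of_pos (show 0 < L3 by linarith)
    linarith
  have hff : ff M ≤ 4 * L1 ^ 2 := by
    unfold ff
    rw [← hL1, ← hL2, ← hL3]
    rw [div_le_iff₀ (by positivity)]
    have h2 : L2 ^ 2 ≤ 4 * L1 := by
      rw [hL2]
      exact Pool.Agent.H256R2.SC.LG.log_sq_le (by linarith)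
    have h3 : L1 * L2 ^ 2 * Real.log L3 ≤ L1 * L2 ^ 2 * L3 :=
      mul_le_mul_of_nonneg_left a4 (by positivity)
    have h4 : L1 * L2 ^ 2 * L3 ≤ L1 * (4 * L1) * L3 := by
      apply mul_le_mul_of_nonneg_right _ (by linarith)
      exact mul_le_mul_of_nonneg_left h2 (by linarith)
    have h5 : L3 ≤ L3 ^ 2 := by nlinarith
    have h6 : 4 * L1 ^ 2 * L3 ≤ 4 * L1 ^ 2 * L3 ^ 2 := mul_le_mul_of_nonneg_left h5 (by positivity)
    nlinarith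
  rw [Real.norm_eq_abs, abs_of_nonneg (show 0 ≤ L1 ^ 2 by positivity), id, Real.norm_eq_abs,
    abs_of_pos (show 0 < M by linarith)] at hlog
  have h7 : 16 * (κ + 1) * L1 ^ 2 ≤ M := by
    rw [div_mul_eq_mul_div, one_mul, le_div_iff₀ (by positivity)] at hlog
    linarith
  have h8 : κ * ff M ≤ κ * (4 * L1 ^ 2) := mul_le_mul_of_nonneg_left hff hk
  nlinarith [sq_nonneg L1]

/-- the equidistribution of the greedy family -/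
theorem equid (m : ℕ) : ∃ Z₁ : ℝ, 1 ≤ Z₁ ∧ ∀ Z : ℕ, Z₁ ≤ Z → ∀ q : ℕ, 0 < q → (q : ℝ) ≤ (Z : ℝ) ^ (3 / 5 : ℝ) →
    q ≤ Z ∧ ∀ n : ℝ, ((Z : ℝ) / q - 1) ^ (m + 1) ≤ n → n ≤ ((Z : ℝ) / q + 1) ^ (m + 1) →
      |n - (Z : ℝ) ^ (m + 1) / (q : ℝ) ^ (m + 1)| ≤
        (Z : ℝ) ^ (m + 1) * (Z : ℝ) ^ (-(35 / 100) : ℝ) / (q : ℝ) ^ (m + 1) := by
  obtain ⟨Z₁, hZ₁⟩ := eventually_atTop.1
    ((tendsto_rpow_atTop (show (0 : ℝ) < 1 / 20 by norm_num)).eventually_ge_atTop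
      (((m : ℝ) + 1) * 2 ^ m))
  refine ⟨max Z₁ 1, le_max_right _ _, fun Z hZ q hq0 hq => ?_⟩
  obtain ⟨hZa, hZb⟩ := max_le_iff.1 hZ
  have hZ0 : (0 : ℝ) < Z := by linarith
  have hqR : (0 : ℝ) < q := by exact_mod_cast hq0
  have h35 : (Z : ℝ) ^ (3 / 5 : ℝ) ≤ Z := by
    calc (Z : ℝ) ^ (3 / 5 : ℝ) ≤ (Z : ℝ) ^ (1 : ℝ) := Real.rpow_le_rpow_of_exponent_le hZb (by norm_num)
      _ = Z := Real.rpow_one _
  have hqZ : (q : ℝ) ≤ Z := hq.trans h35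
  refine ⟨by exact_mod_cast hqZ, fun n h1 h2 => ?_⟩
  obtain ⟨Y, hY⟩ : ∃ Y : ℝ, Y = (Z : ℝ) / q := ⟨_, rfl⟩
  have hY1 : 1 ≤ Y := by rw [hY, le_div_iff₀ hqR, one_mul]; exact hqZ
  have hY25 : (Z : ℝ) ^ (2 / 5 : ℝ) ≤ Y := by
    rw [hY, le_div_iff₀ hqR]
    calc (Z : ℝ) ^ (2 / 5 : ℝ) * q ≤ (Z : ℝ) ^ (2 / 5 : ℝ) * (Z : ℝ) ^ (3 / 5 : ℝ) :=
          mul_le_mul_of_nonneg_left hq (by positivity)
      _ = Z := by rw [← Real.rpow_add hZ0]; norm_num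
  rw [← hY] at h1 h2
  have e1 : (Z : ℝ) ^ (m + 1) / (q : ℝ) ^ (m + 1) = Y ^ (m + 1) := by rw [hY, div_pow]
  have e2 : (Z : ℝ) ^ (m + 1) * (Z : ℝ) ^ (-(35 / 100) : ℝ) / (q : ℝ) ^ (m + 1) =
      Y ^ (m + 1) * (Z : ℝ) ^ (-(35 / 100) : ℝ) := by
    rw [← e1]
    ring
  rw [e1, e2]
  have h3 := pow_diff_le m (x := Y + 1) (y := Y) (by linarith) (by linarith)
  have h4 := pow_diff_le m (x := Y) (y := Y - 1) (by linarith) (by linarith)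
  have h5 : (Y + 1) ^ m ≤ (2 * Y) ^ m := pow_le_pow_left₀ (by linarith) (by linarith) m
  have h6 : Y ^ m ≤ (2 * Y) ^ m := pow_le_pow_left₀ (by linarith) (by linarith) m
  have hm0 : (0 : ℝ) ≤ (m : ℝ) + 1 := by positivity
  have h7 : ((m : ℝ) + 1) * (2 * Y) ^ m ≤ Y ^ (m + 1) * (Z : ℝ) ^ (-(35 / 100) : ℝ) := by
    have h8 := hZ₁ Z hZa
    have h9 : (Z : ℝ) ^ (1 / 20 : ℝ) ≤ Y * (Z : ℝ) ^ (-(35 / 100) : ℝ) := by
      calc (Z : ℝ) ^ (1 / 20 : ℝ) = (Z : ℝ) ^ (2 / 5 : ℝ) * (Z : ℝ) ^ (-(35 / 100) : ℝ) := by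
            rw [← Real.rpow_add hZ0]; norm_num
        _ ≤ _ := mul_le_mul_of_nonneg_right hY25 (by positivity)
    have hYm : 0 ≤ Y ^ m := by positivity
    calc ((m : ℝ) + 1) * (2 * Y) ^ m = ((m : ℝ) + 1) * 2 ^ m * Y ^ m := by rw [mul_pow]; ring
      _ ≤ (Y * (Z : ℝ) ^ (-(35 / 100) : ℝ)) * Y ^ m :=
          mul_le_mul_of_nonneg_right (h8.trans h9) hYm
      _ = _ := by ring
  have h8 : ((m : ℝ) + 1) * (Y + 1 - Y) * (Y + 1) ^ m ≤ ((m : ℝ) + 1) * (2 * Y) ^ m := by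
    have : Y + 1 - Y = 1 := by ring
    rw [this, mul_one]
    exact mul_le_mul_of_nonneg_left h5 hm0
  have h9 : ((m : ℝ) + 1) * (Y - (Y - 1)) * Y ^ m ≤ ((m : ℝ) + 1) * (2 * Y) ^ m := by
    have : Y - (Y - 1) = 1 := by ring
    rw [this, mul_one]
    exact mul_le_mul_of_nonneg_left h6 hm0
  rw [abs_le]
  constructor <;> linarith

end Pool.Agent.H814.SQ
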