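import Pool.Agent.H814.SQ.Fam

set_option autoImplicit false

/-! # Greedy families of sums of powers just above a number, II (project SQ, helper814) -/

namespace Pool.Agent.H814.SQ

open Finset

open scoped Classical

/-- the exponent `∏ (1 - 1 / a_j)` -/
noncomputable def ex {s : ℕ} (a : Fin s → ℕ) : ℝ := ∏ j, (1 - 1 / (a j : ℝ))

theorem ex_nonneg {s : ℕ} (a : Fin s → ℕ) : 0 ≤ ex a := by
  unfold ex
  refine Finset.prod_nonneg fun j _ => ?_
  rcases Nat.eq_zero_or_pos (a j) with h | h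
  · rw [h]; simp
  · have h1 : (1 : ℝ) ≤ a j := by exact_mod_cast h
    have : 1 / (a j : ℝ) ≤ 1 := by rw [div_le_one (by linarith)]; exact h1
    linarith

theorem ex_le_one {s : ℕ} (a : Fin s → ℕ) : ex a ≤ 1 := by
  unfold ex
  refine Finset.prod_le_one (fun j _ => ?_) (fun j _ => ?_)
  · rcases Nat.eq_zero_or_pos (a j) with h | h
    · rw [h]; simp
    · have h1 : (1 : ℝ) ≤ a j := by exact_mod_cast h
      have : 1 / (a j : ℝ) ≤ 1 := by rw [div_le_one (by linarith)]; exact h1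
      linarith
  · have : (0 : ℝ) ≤ 1 / (a j : ℝ) := by positivity
    linarith

/-- the real root -/
theorem root {n T : ℕ} (hn : n ≠ 0) : ∃ u : ℝ, 0 ≤ u ∧ u ^ n = T ∧ (T : ℝ) ^ (1 - 1 / (n : ℝ)) = u ^ (n - 1) := by
  refine ⟨(T : ℝ) ^ (1 / (n : ℝ)), by positivity, ?_, ?_⟩
  · rw [← Real.rpow_natCast, ← Real.rpow_mul (Nat.cast_nonneg _)]
    have : (1 / (n : ℝ)) * n = 1 := by
      have : (n : ℝ) ≠ 0 := by exact_mod_cast hn
      field_simp
    rw [this, Real.rpow_one]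
  · rw [← Real.rpow_natCast, ← Real.rpow_mul (Nat.cast_nonneg _)]
    congr 1
    have h1 : (n : ℝ) ≠ 0 := by exact_mod_cast hn
    have h2 : ((n - 1 : ℕ) : ℝ) = n - 1 := by
      rw [Nat.cast_sub (by omega)]; simp
    rw [h2]
    field_simp

theorem greedy (s : ℕ) : ∀ (a : Fin (s + 1) → ℕ), (∀ j, 2 ≤ a j) → ∃ C : ℝ, 1 ≤ C ∧ ∃ B : ℕ,
    ∀ W : ℕ, 1 ≤ W → ∀ T : ℕ, (4 * W) ^ B ≤ T → ∃ 𝒜 : Finset (Fin (s + 1) → ℤ),
      (∀ x ∈ 𝒜, (∀ j, 0 < x j) ∧ (T : ℤ) < ∑ j, x j ^ a j ∧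
        ((∑ j, x j ^ a j : ℤ) : ℝ) ≤ T + C * (W : ℝ) ^ (s + 1) * (T : ℝ) ^ (ex a)) ∧
      ∀ q : ℕ, 0 < q → q ≤ W → ∀ c : Fin (s + 1) → ℤ,
        ((W : ℝ) / q - 1) ^ (s + 1) ≤ ((𝒜.filter (fun x => ∀ j, (q : ℤ) ∣ x j - c j)).card : ℝ) ∧
        ((𝒜.filter (fun x => ∀ j, (q : ℤ) ∣ x j - c j)).card : ℝ) ≤ ((W : ℝ) / q + 1) ^ (s + 1) := by
  induction s with
  | zero =>
    intro a ha
    have ha0 := ha 0
    obtain ⟨m, hm⟩ : ∃ m : ℕ, a 0 = m + 1 := ⟨a 0 - 1, by omega⟩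
    refine ⟨(m + 1) * 2 ^ (m + 1), ?_, a 0, ?_⟩
    · have h1 : (1 : ℝ) ≤ 2 ^ (m + 1) := one_le_pow₀ (by norm_num)
      have h2 : (0 : ℝ) ≤ m := Nat.cast_nonneg _
      nlinarith
    intro W hW T hT
    obtain ⟨u, hu0, hu1, hu2⟩ := root (T := T) (show a 0 ≠ 0 by omega)
    have hWR : (1 : ℝ) ≤ W := by exact_mod_cast hW
    have hu4 : 4 * (W : ℝ) ≤ u := by
      have h1 : (4 * (W : ℝ)) ^ (a 0) ≤ u ^ (a 0) := by
        rw [hu1]; exact_mod_cast hT
      exact le_of_pow_le_pow_left₀ (by omega) hu0 h1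
    obtain ⟨g, hg⟩ : ∃ g : ℤ, g = ⌈u⌉ := ⟨_, rfl⟩
    have hg1 : u ≤ g := by rw [hg]; exact Int.le_ceil u
    have hg2 : (g : ℝ) < u + 1 := by rw [hg]; exact Int.ceil_lt_add_one u
    refine ⟨fam 0 W g (fun _ => {default}), ?_, ?_⟩
    · intro z hz
      rw [mem_fam] at hz
      obtain ⟨x, ⟨hx1, hx2⟩, y, hy, rfl⟩ := hz
      have hx1' : (g : ℝ) < x := by exact_mod_cast hx1
      have hx2' : (x : ℝ) ≤ g + W := by exact_mod_cast hx2
      have hux : u < x := by linarith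
      have hxu : (x : ℝ) ≤ u + 2 * W := by linarith
      have hx0 : (0 : ℝ) < x := by linarith
      have hsum : ∑ j : Fin (0 + 1), (Fin.cons x y : Fin (0 + 1) → ℤ) j ^ a j = x ^ a 0 := by
        simp
      have hex : ex a = 1 - 1 / ((a 0 : ℕ) : ℝ) := by
        unfold ex
        simp
      rw [hsum, hex, hu2]
      have hu1' := hu1
      rw [hm] at hu1' ⊢
      refine ⟨?_, ?_, ?_⟩
      · intro j
        have : j = 0 := Fin.fin_one_eq_zero j
        rw [this]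
        simp only [Fin.cons_zero]
        exact_mod_cast hx0
      · have h1 : u ^ (m + 1) < (x : ℝ) ^ (m + 1) := pow_lt_pow_left₀ hux hu0 (by omega)
        rw [hu1'] at h1
        exact_mod_cast h1
      · have h1 := pow_diff_le m hu0 hux.le
        rw [hu1'] at h1
        have h2 : (x : ℝ) ^ m ≤ (2 * u) ^ m := pow_le_pow_left₀ hx0.le (by linarith) m
        have h3 : ((m : ℝ) + 1) * (x - u) * (x : ℝ) ^ m ≤ ((m : ℝ) + 1) * (2 * W) * (2 * u) ^ m := by
          apply mul_le_mul _ h2 (by positivity) (by positivity)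
          apply mul_le_mul_of_nonneg_left (by linarith) (by positivity)
        have h4 : ((m : ℝ) + 1) * (2 * W) * (2 * u) ^ m =
            ((m + 1) * 2 ^ (m + 1)) * (W : ℝ) ^ (0 + 1) * u ^ (m + 1 - 1) := by
          rw [mul_pow, Nat.add_sub_cancel]
          ring
        rw [Int.cast_pow]
        linarith
    · intro q hq hqW c
      refine fam_count 0 W g _ q hq hqW ?_ c
      intro x _ _ c
      simp
  | succ s ih =>
    intro a ha
    obtain ⟨C, hC, B, hfam⟩ := ih (fun j => a j.succ) (fun j => ha _)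
    have ha0 := ha 0
    obtain ⟨m, hm⟩ : ∃ m : ℕ, a 0 = m + 1 := ⟨a 0 - 1, by omega⟩
    refine ⟨C * (2 * (m + 1)), ?_, (B + 1) * a 0, ?_⟩
    · have h2 : (0 : ℝ) ≤ m := Nat.cast_nonneg _
      nlinarith
    intro W hW T hT
    obtain ⟨u, hu0, hu1, hu2⟩ := root (T := T) (show a 0 ≠ 0 by omega)
    have hWR : (1 : ℝ) ≤ W := by exact_mod_cast hW
    have huB : (4 * (W : ℝ)) ^ (B + 1) ≤ u := by
      have h1 : ((4 * (W : ℝ)) ^ (B + 1)) ^ (a 0) ≤ u ^ (a 0) := by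
        rw [hu1, ← pow_mul]; exact_mod_cast hT
      exact le_of_pow_le_pow_left₀ (by omega) hu0 h1
    have h4W : (1 : ℝ) ≤ 4 * W := by linarith
    have hu4 : 4 * (W : ℝ) ≤ u := by
      refine le_trans ?_ huB
      calc 4 * (W : ℝ) = (4 * W) ^ 1 := (pow_one _).symm
        _ ≤ (4 * W) ^ (B + 1) := pow_le_pow_right₀ h4W (by omega)
    have huB' : (4 * (W : ℝ)) ^ B ≤ u := by
      refine le_trans ?_ huB
      exact pow_le_pow_right₀ h4W (by omega)
    have hu_one : 1 ≤ u := by linarith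
    -- the family for the remainders
    have key : ∀ R : ℕ, ∃ 𝒜 : Finset (Fin (s + 1) → ℤ), (4 * W) ^ B ≤ R →
      (∀ x ∈ 𝒜, (∀ j, 0 < x j) ∧ (R : ℤ) < ∑ j, x j ^ a j.succ ∧
        ((∑ j, x j ^ a j.succ : ℤ) : ℝ) ≤ R + C * (W : ℝ) ^ (s + 1) * (R : ℝ) ^ (ex (fun j => a j.succ))) ∧
      ∀ q : ℕ, 0 < q → q ≤ W → ∀ c : Fin (s + 1) → ℤ,
        ((W : ℝ) / q - 1) ^ (s + 1) ≤ ((𝒜.filter (fun x => ∀ j, (q : ℤ) ∣ x j - c j)).card : ℝ) ∧
        ((𝒜.filter (fun x => ∀ j, (q : ℤ) ∣ x j - c j)).card : ℝ) ≤ ((W : ℝ) / q + 1) ^ (s + 1) := by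
      intro R
      by_cases hR : (4 * W) ^ B ≤ R
      · obtain ⟨𝒜, h1, h2⟩ := hfam W hW R hR
        exact ⟨𝒜, fun _ => ⟨h1, h2⟩⟩
      · exact ⟨∅, fun h => absurd h hR⟩
    choose F hF using key
    obtain ⟨g, hg⟩ : ∃ g : ℤ, g = ⌊u⌋ - 2 * W := ⟨_, rfl⟩
    have hg1 : (g : ℝ) ≤ u - 2 * W := by
      rw [hg]
      push_cast
      have := Int.floor_le u
      linarith
    have hg2 : u - 2 * W < g + 1 := by
      rw [hg]
      push_cast
      have := Int.lt_floor_add_one u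
      linarith
    have hx : ∀ x : ℤ, g < x → x ≤ g + W → 0 < (x : ℝ) ∧ u - 2 * W ≤ x ∧ (x : ℝ) ≤ u - W := by
      intro x hx1 hx2
      have hx1' : (g : ℝ) + 1 ≤ x := by exact_mod_cast hx1
      have hx2' : (x : ℝ) ≤ g + W := by exact_mod_cast hx2
      refine ⟨by linarith, by linarith, by linarith⟩
    have hu1' := hu1
    rw [hm] at hu1'
    -- the remainder
    have hrem : ∀ x : ℤ, g < x → x ≤ g + W → ∃ R : ℕ, R = (T - x ^ (a 0) : ℤ).toNat ∧
        (x : ℤ) ^ (a 0) + R = T ∧ (4 * W) ^ B ≤ R ∧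
        (R : ℝ) ≤ 2 * (m + 1) * W * (T : ℝ) ^ (1 - 1 / ((a 0 : ℕ) : ℝ)) := by
      intro x hx1 hx2
      obtain ⟨h1, h2, h3⟩ := hx x hx1 hx2
      obtain ⟨R, hR⟩ : ∃ R : ℕ, R = (T - x ^ (a 0) : ℤ).toNat := ⟨_, rfl⟩
      have hxu : (x : ℝ) ≤ u := by linarith
      have h4 := le_pow_diff m h1.le hxu
      have h5 := pow_diff_le m h1.le hxu
      rw [hu1'] at h4 h5
      have hum : 0 ≤ u ^ m := pow_nonneg hu0 _
      have h6 : (W : ℝ) * u ^ m ≤ (u - x) * u ^ m := mul_le_mul_of_nonneg_right (by linarith) hum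
      have h7 : 0 ≤ (T : ℤ) - x ^ (a 0) := by
        have h8 : (0 : ℝ) ≤ (T : ℝ) - (x : ℝ) ^ (m + 1) := by
          have : 0 ≤ (W : ℝ) * u ^ m := by positivity
          linarith
        rw [hm]
        exact_mod_cast h8
      have h8 : (R : ℤ) = T - x ^ (a 0) := by rw [hR]; exact Int.toNat_of_nonneg h7
      have h9 : (R : ℝ) = T - (x : ℝ) ^ (m + 1) := by
        rw [hm] at h8
        exact_mod_cast h8
      refine ⟨R, hR, by rw [h8]; ring, ?_, ?_⟩
      · have h10 : ((4 * (W : ℝ)) ^ B) ≤ R := by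
          rw [h9]
          have h11 : u ≤ u ^ m := by
            calc u = u ^ 1 := (pow_one u).symm
              _ ≤ u ^ m := pow_le_pow_right₀ hu_one (by omega)
          have h12 : u ^ m ≤ W * u ^ m := by
            have := mul_le_mul_of_nonneg_right hWR hum
            linarith
          linarith
        exact_mod_cast h10
      · rw [h9, hu2, hm, Nat.add_sub_cancel]
        refine h5.trans ?_
        have h10 : ((m : ℝ) + 1) * (u - x) ≤ 2 * (m + 1) * W := by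
          have : u - x ≤ 2 * W := by linarith
          have hm0 : (0 : ℝ) ≤ (m : ℝ) + 1 := by positivity
          nlinarith
        exact mul_le_mul_of_nonneg_right h10 hum
    refine ⟨fam (s + 1) W g (fun x => F (T - x ^ (a 0) : ℤ).toNat), ?_, ?_⟩
    · intro z hz
      rw [mem_fam] at hz
      obtain ⟨x, ⟨hx1, hx2⟩, y, hy, rfl⟩ := hz
      obtain ⟨R, hR1, hR2, hR3, hR4⟩ := hrem x hx1 hx2
      rw [← hR1] at hy
      obtain ⟨h1, h2, h3⟩ := (hF R hR3).1 y hy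
      have hx0 := (hx x hx1 hx2).1
      have hsum : ∑ j : Fin (s + 1 + 1), (Fin.cons x y : Fin (s + 1 + 1) → ℤ) j ^ a j =
          x ^ a 0 + ∑ j, y j ^ a j.succ := by
        rw [Fin.sum_univ_succ]
        simp
      have hex : ex a = (1 - 1 / ((a 0 : ℕ) : ℝ)) * ex (fun j => a j.succ) := by
        unfold ex
        rw [Fin.prod_univ_succ]
      rw [hsum]
      refine ⟨?_, by omega, ?_⟩
      · intro j
        refine Fin.cases ?_ (fun j => ?_) j
        · simp only [Fin.cons_zero]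
          exact_mod_cast hx0
        · simp only [Fin.cons_succ]
          exact h1 j
      · have hR2' : ((x : ℝ)) ^ (a 0) + R = T := by exact_mod_cast hR2
        obtain ⟨e, he⟩ : ∃ e : ℝ, e = ex (fun j => a j.succ) := ⟨_, rfl⟩
        obtain ⟨e0, he0⟩ : ∃ e0 : ℝ, e0 = 1 - 1 / ((a 0 : ℕ) : ℝ) := ⟨_, rfl⟩
        have hen : 0 ≤ e := by rw [he]; exact ex_nonneg _
        have he1 : e ≤ 1 := by rw [he]; exact ex_le_one _
        rw [hex, ← he, ← he0]
        rw [← he] at h3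
        rw [← he0] at hR4
        have hK1 : (1 : ℝ) ≤ 2 * (m + 1) * W := by
          have : (0 : ℝ) ≤ m := Nat.cast_nonneg _
          nlinarith
        have h4 : (R : ℝ) ^ e ≤ (2 * (m + 1) * W) * (T : ℝ) ^ (e0 * e) := by
          calc (R : ℝ) ^ e ≤ (2 * (m + 1) * W * (T : ℝ) ^ e0) ^ e :=
                Real.rpow_le_rpow (Nat.cast_nonneg _) hR4 hen
            _ = (2 * (m + 1) * W) ^ e * ((T : ℝ) ^ e0) ^ e :=
                Real.mul_rpow (by linarith) (by positivity)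
            _ = (2 * (m + 1) * W) ^ e * (T : ℝ) ^ (e0 * e) := by
                rw [← Real.rpow_mul (Nat.cast_nonneg _)]
            _ ≤ (2 * (m + 1) * W) ^ (1 : ℝ) * (T : ℝ) ^ (e0 * e) := by
                apply mul_le_mul_of_nonneg_right _ (by positivity)
                exact Real.rpow_le_rpow_of_exponent_le hK1 he1
            _ = _ := by rw [Real.rpow_one]
        have h5 : C * (W : ℝ) ^ (s + 1) * (R : ℝ) ^ e ≤
            C * (W : ℝ) ^ (s + 1) * ((2 * (m + 1) * W) * (T : ℝ) ^ (e0 * e)) :=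
          mul_le_mul_of_nonneg_left h4 (by positivity)
        push_cast at h3 ⊢
        have h6 : C * (W : ℝ) ^ (s + 1) * ((2 * (m + 1) * W) * (T : ℝ) ^ (e0 * e)) =
            C * (2 * (m + 1)) * (W : ℝ) ^ (s + 1 + 1) * (T : ℝ) ^ (e0 * e) := by ring
        linarith
    · intro q hq hqW c
      refine fam_count (s + 1) W g _ q hq hqW ?_ c
      intro x hx1 hx2 c
      obtain ⟨R, hR1, hR2, hR3, hR4⟩ := hrem x hx1 hx2
      rw [← hR1]
      exact (hF R hR3).2 q hq hqW c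

end Pool.Agent.H814.SQ
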