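import Mathlib

set_option autoImplicit false
set_option linter.unusedSectionVars false

/-! # The number of the solutions of `∑ x_j ^ a_j = r` modulo `p`: recursion (project SQ, helper814) -/

namespace Pool.Agent.H814.SQ

open Finset

open scoped Classical

/-- the number of the solutions of `∑ x_j ^ a_j = r` modulo `p` -/
noncomputable def NS (p : ℕ) [Fact p.Prime] {s : ℕ} (a : Fin s → ℕ) (r : ZMod p) : ℕ :=
  (univ.filter (fun x : Fin s → ZMod p => ∑ j, x j ^ a j = r)).card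

theorem pow_card (p : ℕ) [Fact p.Prime] (a : ℕ) (r : ZMod p) (ha : 0 < a) :
    (univ.filter (fun t : ZMod p => t ^ a = r)).card ≤ a := by
  have h1 : univ.filter (fun t : ZMod p => t ^ a = r) ⊆ (Polynomial.nthRoots a r).toFinset := by
    intro t ht
    rw [Multiset.mem_toFinset, Polynomial.mem_nthRoots ha]
    exact (mem_filter.1 ht).2
  exact (card_le_card h1).trans ((Multiset.toFinset_card_le _).trans (Polynomial.card_nthRoots a r))

theorem NS_succ (p : ℕ) [Fact p.Prime] {s : ℕ} (a : Fin (s + 1) → ℕ) (r : ZMod p) :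
    NS p a r = ∑ t : ZMod p, NS p (fun j => a j.succ) (r - t ^ a 0) := by
  unfold NS
  simp_rw [Finset.card_filter]
  rw [← (Fin.consEquiv (fun _ : Fin (s + 1) => ZMod p)).sum_comp, Fintype.sum_prod_type]
  refine Finset.sum_congr rfl fun t _ => Finset.sum_congr rfl fun y _ => ?_
  have h1 : ∑ j, (Fin.consEquiv (fun _ : Fin (s + 1) => ZMod p)) (t, y) j ^ a j =
      t ^ a 0 + ∑ j, y j ^ a j.succ := by
    rw [Fin.sum_univ_succ]
    rfl
  rw [h1]
  have h2 : (t ^ a 0 + ∑ j, y j ^ a j.succ = r) ↔ (∑ j, y j ^ a j.succ = r - t ^ a 0) := by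
    constructor
    · intro h; rw [← h]; ring
    · intro h; rw [h]; ring
  simp only [h2]

theorem NS_crude (s : ℕ) : ∀ (a : Fin (s + 1) → ℕ), (∀ j, 0 < a j) → ∃ K : ℝ, 0 ≤ K ∧
    ∀ (p : ℕ) [Fact p.Prime] (r : ZMod p), (NS p a r : ℝ) ≤ K * (p : ℝ) ^ s := by
  induction s with
  | zero =>
    intro a ha
    refine ⟨a 0, Nat.cast_nonneg _, fun p _ r => ?_⟩
    have h1 : NS p a r = (univ.filter (fun t : ZMod p => t ^ a 0 = r)).card := by
      rw [NS_succ, Finset.card_filter]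
      refine Finset.sum_congr rfl fun t _ => ?_
      unfold NS
      by_cases h : t ^ a 0 = r
      · rw [if_pos h, h]
        simp
      · rw [if_neg h]
        have h' : ¬ (0 : ZMod p) = r - t ^ a 0 := by
          intro h2
          exact h (sub_eq_zero.1 h2.symm).symm
        simp [h']
    rw [h1, pow_zero, mul_one]
    exact_mod_cast pow_card p (a 0) r (ha 0)
  | succ s ih =>
    intro a ha
    obtain ⟨K, hK, h⟩ := ih (fun j => a j.succ) (fun j => ha _)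
    refine ⟨K, hK, fun p _ r => ?_⟩
    rw [NS_succ]
    push_cast
    refine (Finset.sum_le_sum (fun t _ => h p (r - t ^ a 0))).trans ?_
    rw [sum_const, card_univ, ZMod.card, nsmul_eq_mul, pow_succ]
    apply le_of_eq
    ring

/-- the step of the induction -/
theorem NS_step (s : ℕ) (a : Fin (s + 3) → ℕ) (ha : ∀ j, 0 < a j)
    (h : ∃ K : ℝ, 0 ≤ K ∧ ∀ (p : ℕ) [Fact p.Prime] (r : ZMod p), r ≠ 0 →
      |(NS p (fun j => a j.succ) r : ℝ) - (p : ℝ) ^ (s + 1)| ≤ K * (p : ℝ) ^ (s + 1) * (p : ℝ) ^ (-(1 / 2) : ℝ)) :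
    ∃ K : ℝ, 0 ≤ K ∧ ∀ (p : ℕ) [Fact p.Prime] (r : ZMod p), r ≠ 0 →
      |(NS p a r : ℝ) - (p : ℝ) ^ (s + 2)| ≤ K * (p : ℝ) ^ (s + 2) * (p : ℝ) ^ (-(1 / 2) : ℝ) := by
  obtain ⟨K, hK, h⟩ := h
  obtain ⟨K', hK', hc⟩ := NS_crude (s + 1) (fun j => a j.succ) (fun j => ha _)
  refine ⟨K + a 0 * (K' + 1), by positivity, fun p _ r hr => ?_⟩
  have hp := (Fact.out : p.Prime)
  have hp1 : (1 : ℝ) ≤ p := by exact_mod_cast hp.one_lt.le
  have hp0 : (0 : ℝ) < p := by linarith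
  obtain ⟨E, hE⟩ : ∃ E : ℝ, E = (p : ℝ) ^ (s + 1) * (p : ℝ) ^ (-(1 / 2) : ℝ) := ⟨_, rfl⟩
  have hE0 : 0 ≤ E := by rw [hE]; positivity
  have h1 : (NS p a r : ℝ) - (p : ℝ) ^ (s + 2) =
      ∑ t : ZMod p, ((NS p (fun j => a j.succ) (r - t ^ a 0) : ℝ) - (p : ℝ) ^ (s + 1)) := by
    rw [NS_succ, Finset.sum_sub_distrib, sum_const, card_univ, ZMod.card, nsmul_eq_mul]
    push_cast
    ring
  rw [h1]
  refine (Finset.abs_sum_le_sum_abs _ _).trans ?_
  have h2 : ∀ t : ZMod p, |(NS p (fun j => a j.succ) (r - t ^ a 0) : ℝ) - (p : ℝ) ^ (s + 1)| ≤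
      K * E + (if t ^ a 0 = r then (K' + 1) * (p : ℝ) ^ (s + 1) else 0) := by
    intro t
    by_cases ht : t ^ a 0 = r
    · rw [if_pos ht]
      have h3 := hc p (r - t ^ a 0)
      have h4 : (0 : ℝ) ≤ (NS p (fun j => a j.succ) (r - t ^ a 0) : ℝ) := Nat.cast_nonneg _
      have h5 : (0 : ℝ) ≤ (p : ℝ) ^ (s + 1) := by positivity
      have h6 : 0 ≤ K * E := by positivity
      have h7 : 0 ≤ K' * (p : ℝ) ^ (s + 1) := by positivity
      rw [abs_le]
      constructor <;> nlinarith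
    · rw [if_neg ht, add_zero, hE, ← mul_assoc]
      exact h p (r - t ^ a 0) (fun h => ht (sub_eq_zero.1 h).symm)
  refine (Finset.sum_le_sum (fun t _ => h2 t)).trans ?_
  rw [Finset.sum_add_distrib, sum_const, card_univ, ZMod.card, nsmul_eq_mul, ← Finset.sum_filter,
    sum_const, nsmul_eq_mul]
  have h3 : (((univ.filter (fun t : ZMod p => t ^ a 0 = r)).card : ℕ) : ℝ) ≤ a 0 := by
    exact_mod_cast pow_card p (a 0) r (ha 0)
  have h4 : (p : ℝ) ^ (s + 1) ≤ (p : ℝ) ^ (s + 2) * (p : ℝ) ^ (-(1 / 2) : ℝ) := by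
    have h5 : (1 : ℝ) ≤ (p : ℝ) * (p : ℝ) ^ (-(1 / 2) : ℝ) := by
      have h6 : (p : ℝ) * (p : ℝ) ^ (-(1 / 2) : ℝ) = (p : ℝ) ^ (1 / 2 : ℝ) := by
        nth_rewrite 1 [← Real.rpow_one (p : ℝ)]
        rw [← Real.rpow_add hp0]
        norm_num
      rw [h6]
      exact Real.one_le_rpow hp1 (by norm_num)
    have h7 : (0 : ℝ) ≤ (p : ℝ) ^ (s + 1) := by positivity
    calc (p : ℝ) ^ (s + 1) = (p : ℝ) ^ (s + 1) * 1 := (mul_one _).symm
      _ ≤ (p : ℝ) ^ (s + 1) * ((p : ℝ) * (p : ℝ) ^ (-(1 / 2) : ℝ)) := mul_le_mul_of_nonneg_left h5 h7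
      _ = _ := by ring
  have h5 : (((univ.filter (fun t : ZMod p => t ^ a 0 = r)).card : ℕ) : ℝ) * ((K' + 1) * (p : ℝ) ^ (s + 1)) ≤
      a 0 * ((K' + 1) * ((p : ℝ) ^ (s + 2) * (p : ℝ) ^ (-(1 / 2) : ℝ))) := by
    apply mul_le_mul h3 _ (by positivity) (Nat.cast_nonneg _)
    exact mul_le_mul_of_nonneg_left h4 (by linarith)
  calc (p : ℝ) * (K * E) + (((univ.filter (fun t : ZMod p => t ^ a 0 = r)).card : ℕ) : ℝ) *
        ((K' + 1) * (p : ℝ) ^ (s + 1))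
      ≤ (p : ℝ) * (K * E) + a 0 * ((K' + 1) * ((p : ℝ) ^ (s + 2) * (p : ℝ) ^ (-(1 / 2) : ℝ))) := by
        linarith
    _ = (K + a 0 * (K' + 1)) * (p : ℝ) ^ (s + 2) * (p : ℝ) ^ (-(1 / 2) : ℝ) := by
        rw [hE]
        ring

end Pool.Agent.H814.SQ
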