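import Pool.Agent.Y837.SV.Pow
import Pool.Agent.H814.SQ.Pts0

set_option autoImplicit false
set_option linter.unusedSectionVars false

/-! # The number of the solutions of `∑ x_j ^ a_j = r` modulo `p` (project SQ, helper814) -/

namespace Pool.Agent.H814.SQ

open Finset
open Pool.Agent.Y837.SV (NN NN_bound)

open scoped Classical

theorem NS_two (a : Fin (0 + 2) → ℕ) (ha : ∀ j, 0 < a j) : ∃ K : ℝ, 0 ≤ K ∧
    ∀ (p : ℕ) [Fact p.Prime] (r : ZMod p), r ≠ 0 →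
      |(NS p a r : ℝ) - (p : ℝ) ^ (0 + 1)| ≤ K * (p : ℝ) ^ (0 + 1) * (p : ℝ) ^ (-(1 / 2) : ℝ) := by
  refine ⟨8 * (a 0 : ℝ) ^ 3 * (a 1 : ℝ) ^ 3, by positivity, fun p _ r hr => ?_⟩
  have hp := (Fact.out : p.Prime)
  have hp1 : (1 : ℝ) ≤ p := by exact_mod_cast hp.one_lt.le
  have hp0 : (0 : ℝ) < p := by linarith
  have h1 : NS p a r = NN p (a 0) (a 1) 1 r := by
    unfold NS NN
    refine Finset.card_bij' (fun x _ => (x 0, x 1)) (fun z _ => ![z.1, z.2]) ?_ ?_ ?_ ?_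
    · intro x hx
      rw [mem_filter] at hx ⊢
      refine ⟨mem_univ _, ?_⟩
      have h2 := hx.2
      rw [Fin.sum_univ_two] at h2
      simpa using h2
    · intro z hz
      rw [mem_filter] at hz ⊢
      refine ⟨mem_univ _, ?_⟩
      have h2 := hz.2
      rw [Fin.sum_univ_two]
      simpa using h2
    · intro x _
      funext i
      fin_cases i <;> rfl
    · intro z _
      rfl
  have h2 := NN_bound (a 0) (a 1) (ha 0) (ha 1) (1 : ZMod p) one_ne_zero r hr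
  obtain ⟨K, hK⟩ : ∃ K : ℝ, K = 8 * (a 0 : ℝ) ^ 3 * (a 1 : ℝ) ^ 3 := ⟨_, rfl⟩
  have hK1 : 1 ≤ K := by
    have h3 : (1 : ℝ) ≤ (a 0 : ℝ) ^ 3 := one_le_pow₀ (by exact_mod_cast ha 0)
    have h4 : (1 : ℝ) ≤ (a 1 : ℝ) ^ 3 := one_le_pow₀ (by exact_mod_cast ha 1)
    rw [hK]
    nlinarith
  rw [h1, ← hK]
  rw [← hK] at h2
  have h3 : (p : ℝ) ^ (0 + 1) * (p : ℝ) ^ (-(1 / 2) : ℝ) = (p : ℝ) ^ (1 / 2 : ℝ) := by
    rw [zero_add, pow_one]
    nth_rewrite 1 [← Real.rpow_one (p : ℝ)]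
    rw [← Real.rpow_add hp0]
    norm_num
  have e1 : (p : ℝ) ^ (0 + 1) = p := by simp
  rw [mul_assoc, h3, e1]
  have h4 : ((p : ℝ) ^ (1 / 2 : ℝ)) ^ 2 = p := by
    rw [← Real.rpow_natCast, ← Real.rpow_mul hp0.le]
    norm_num
  have h5 : 0 ≤ (p : ℝ) ^ (1 / 2 : ℝ) := by positivity
  apply abs_le_of_sq_le_sq _ (by positivity)
  rw [mul_pow, h4]
  nlinarith

theorem NS_main (s : ℕ) : ∀ (a : Fin (s + 2) → ℕ), (∀ j, 0 < a j) → ∃ K : ℝ, 0 ≤ K ∧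
    ∀ (p : ℕ) [Fact p.Prime] (r : ZMod p), r ≠ 0 →
      |(NS p a r : ℝ) - (p : ℝ) ^ (s + 1)| ≤ K * (p : ℝ) ^ (s + 1) * (p : ℝ) ^ (-(1 / 2) : ℝ) := by
  induction s with
  | zero => exact NS_two
  | succ s ih =>
    intro a ha
    exact NS_step s a ha (ih (fun j => a j.succ) (fun j => ha _))

end Pool.Agent.H814.SQ
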