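import Pool.Agent.H814.SQ.Gen
import Pool.Agent.H814.SQ.Fam2
import Pool.Agent.H814.SQ.Pts
import Pool.Agent.H814.SQ.Ana

set_option autoImplicit false

/-! # Record prime gaps around sums of powers in short intervals (project SQ, helper814) -/

namespace Pool.Agent.H814.SQ

open Finset Filter
open Pool.Agent.W147.PS (ff_compare ev_pow)

open scoped Classical

/-- the record neighbourhoods of the sums of powers over an equidistributed family of points -/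
theorem sum_gen (s : ℕ) (a : Fin (s + 2) → ℕ) (ha : ∀ j, 0 < a j) :
    ∃ c : ℝ, 0 < c ∧ ∃ Z₀ : ℝ, ∀ Z : ℕ, Z₀ ≤ Z →
      ∀ (𝒜 : Finset (Fin (s + 2) → ℤ)) (N : ℝ), 0 < N →
      (∀ q : ℕ, 0 < q → (q : ℝ) ≤ (Z : ℝ) ^ (3 / 5 : ℝ) → ∀ b : Fin (s + 2) → ℤ,
        |((𝒜.filter (fun t => ∀ j, (q : ℤ) ∣ t j - b j)).card : ℝ) - N / (q : ℝ) ^ (s + 2)| ≤
          N * (Z : ℝ) ^ (-(35 / 100) : ℝ) / (q : ℝ) ^ (s + 2)) →
      ∃ x ∈ 𝒜, ∀ h : ℤ, |(h : ℝ)| ≤ c * Pool.Agent.H256R2.SC.ff Z →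
        ∃ p : ℕ, p.Prime ∧ (p : ℝ) ≤ (Z : ℝ) ^ (1 / 10 : ℝ) ∧ (p : ℤ) ∣ (∑ j, x j ^ a j) + h := by
  obtain ⟨K, hK, hcount⟩ := NS_main s a ha
  obtain ⟨c, hc, Z₀, h⟩ := genG (ι := Unit) (s + 2) (fun _ p x => ∑ j, x j ^ a j)
    (fun _ x => ∑ j, x j ^ a j) (by
      intro _ p x
      push_cast
      rfl) 0 (Pi.single 0 1) (by
      intro _
      refine Finset.sum_eq_zero fun j _ => ?_
      simp [(ha j).ne']) (by
      intro _
      have h1 : ∑ j, (Pi.single (0 : Fin (s + 2)) (1 : ℤ) : Fin (s + 2) → ℤ) j ^ a j = 1 := by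
        rw [Finset.sum_eq_single (0 : Fin (s + 2))]
        · simp
        · intro j _ hj
          rw [Pi.single_eq_of_ne hj, zero_pow (ha j).ne']
        · simp
      simp only [h1]
      norm_num) K (1 / 2) hK (by norm_num) le_rfl (by
      intro p hp _ r hr
      haveI : Fact p.Prime := ⟨hp⟩
      have h1 := hcount p r hr
      have h2 : (Nat.card {x : Fin (s + 2) → ZMod p // ∑ j, x j ^ a j = r} : ℝ) = NS p a r := by
        rw [Nat.card_eq_fintype_card, Fintype.card_subtype]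
        unfold NS
        congr
      rw [h2]
      have h3 : (p : ℝ) * (NS p a r : ℝ) - (p : ℝ) ^ (s + 2) =
          p * ((NS p a r : ℝ) - (p : ℝ) ^ (s + 1)) := by ring
      rw [h3, abs_mul, abs_of_nonneg (Nat.cast_nonneg (α := ℝ) p)]
      calc (p : ℝ) * |(NS p a r : ℝ) - (p : ℝ) ^ (s + 1)|
          ≤ p * (K * (p : ℝ) ^ (s + 1) * (p : ℝ) ^ (-(1 / 2) : ℝ)) :=
            mul_le_mul_of_nonneg_left h1 (Nat.cast_nonneg _)
        _ = _ := by ring) (by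
      intro p hp i j hij
      exact absurd (Subsingleton.elim i j) hij)
  refine ⟨c, hc, Z₀, fun Z hZ 𝒜 N hN hA => ?_⟩
  obtain ⟨x, hx, hx2⟩ := h Z hZ _ 𝒜 (fun x => x) N hN hA
  exact ⟨x, hx, fun h hh => hx2 () h hh⟩

theorem main (s : ℕ) (a : Fin (s + 2) → ℕ) (ha : ∀ j, 2 ≤ a j) (ε : ℝ) (hε : 0 < ε) :
    ∃ κ : ℝ, 0 < κ ∧ ∃ M₀ : ℕ, ∀ M : ℕ, M₀ ≤ M → ∃ x : Fin (s + 2) → ℕ, (∀ j, 0 < x j) ∧
      M < ∑ j, x j ^ a j ∧ ((∑ j, x j ^ a j : ℕ) : ℝ) ≤ M + (M : ℝ) ^ (ex a + ε) ∧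
      ∀ q : ℕ, q.Prime → κ * Pool.Agent.W147.PS.ff M < |(q : ℝ) - ((∑ j, x j ^ a j : ℕ) : ℝ)| := by
  obtain ⟨c, hc, Z₀, hgen⟩ := sum_gen s a (fun j => by have := ha j; omega)
  obtain ⟨C, hC, B, hfam⟩ := greedy (s + 1) a ha
  obtain ⟨Z₁, hZ₁1, hequid⟩ := equid (s + 1)
  -- the exponent
  obtain ⟨η, hη⟩ : ∃ η : ℝ, η = min (1 / 2) (min (ε / (2 * (s + 2))) (1 / (2 * (B + 1)))) := ⟨_, rfl⟩
  have hη0 : 0 < η := by
    rw [hη]
    exact lt_min (by norm_num) (lt_min (by positivity) (by positivity))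
  have hη1 : η ≤ 1 / 2 := by rw [hη]; exact min_le_left _ _
  have hη2 : η * (s + 2) ≤ ε / 2 := by
    have h1 : η ≤ ε / (2 * (s + 2)) := by
      rw [hη]; exact (min_le_right _ _).trans (min_le_left _ _)
    have h2 : (0 : ℝ) < (s : ℝ) + 2 := by positivity
    calc η * (s + 2) ≤ ε / (2 * (s + 2)) * (s + 2) := mul_le_mul_of_nonneg_right h1 h2.le
      _ = ε / 2 := by field_simp
  have hη3 : η * B ≤ 1 / 2 := by
    have h1 : η ≤ 1 / (2 * (B + 1)) := by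
      rw [hη]; exact (min_le_right _ _).trans (min_le_right _ _)
    have h2 : (0 : ℝ) ≤ (B : ℝ) := Nat.cast_nonneg _
    calc η * B ≤ 1 / (2 * (B + 1)) * B := mul_le_mul_of_nonneg_right h1 h2
      _ ≤ 1 / 2 := by
        rw [div_mul_eq_mul_div, div_le_div_iff₀ (by positivity) (by norm_num)]
        linarith
  obtain ⟨κ, hκ⟩ : ∃ κ : ℝ, κ = c * (η / 2 / 32) := ⟨_, rfl⟩
  have hκ0 : 0 < κ := by rw [hκ]; positivity
  have hev : ∀ᶠ M : ℝ in atTop, 1 ≤ M ∧ max Z₀ Z₁ + 1 ≤ M ^ η ∧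
      (4 : ℝ) ^ B * M ^ (1 / 2 : ℝ) ≤ M ^ (1 : ℝ) ∧
      C * M ^ (ex a + ε / 2) ≤ M ^ (ex a + ε) ∧ 2 * M ^ (η / 2) ≤ M ^ η ∧
      (∀ x : ℝ, M ^ (η / 2) ≤ x → x ≤ M ^ 2 → η / 2 / 32 * Pool.Agent.W147.PS.ff M ≤
        Pool.Agent.W147.PS.ff x) ∧
      κ * Pool.Agent.W147.PS.ff M ≤ M / 4 ∧ 4 * M ^ (1 / 10 : ℝ) ≤ M ^ (1 : ℝ) := by
    filter_upwards [eventually_ge_atTop (1 : ℝ),
      (tendsto_rpow_atTop hη0).eventually_ge_atTop (max Z₀ Z₁ + 1),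
      ev_pow (1 / 2) 1 ((4 : ℝ) ^ B) (by norm_num), ev_pow (ex a + ε / 2) (ex a + ε) C (by linarith),
      ev_pow (η / 2) η 2 (by linarith), ff_compare (η / 2) (by linarith) (by linarith),
      ff_small κ hκ0.le, ev_pow (1 / 10) 1 4 (by norm_num)] with M h1 h2 h3 h4 h5 h6 h7 h8
    exact ⟨h1, h2, h3, h4, h5, fun x hx1 hx2 => (h6.2 x hx1 hx2).1, h7, h8⟩
  obtain ⟨M₀, hM₀⟩ := eventually_atTop.1 hev
  refine ⟨κ, hκ0, ⌈M₀⌉₊, fun M hM => ?_⟩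
  have hMR : M₀ ≤ (M : ℝ) := (Nat.le_ceil _).trans (by exact_mod_cast hM)
  obtain ⟨e1, e2, e3, e4, e5, e6, e7, e8⟩ := hM₀ M hMR
  have hM0 : (0 : ℝ) < M := by linarith
  obtain ⟨Z, hZ⟩ : ∃ Z : ℕ, Z = ⌊(M : ℝ) ^ η⌋₊ := ⟨_, rfl⟩
  have hZ1 : (Z : ℝ) ≤ (M : ℝ) ^ η := by rw [hZ]; exact Nat.floor_le (by positivity)
  have hZ2 : (M : ℝ) ^ η < Z + 1 := by rw [hZ]; exact Nat.lt_floor_add_one _
  have hZa : Z₀ ≤ Z := by
    have := le_max_left Z₀ Z₁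
    linarith
  have hZb : Z₁ ≤ Z := by
    have := le_max_right Z₀ Z₁
    linarith
  have hZc : (1 : ℝ) ≤ Z := hZ₁1.trans hZb
  have hZd : 1 ≤ Z := by exact_mod_cast hZc
  have h4B : (4 * Z) ^ B ≤ M := by
    have h1 : ((4 * (Z : ℝ)) ^ B) ≤ M := by
      calc (4 * (Z : ℝ)) ^ B ≤ (4 * (M : ℝ) ^ η) ^ B :=
            pow_le_pow_left₀ (by positivity) (by linarith) B
        _ = 4 ^ B * (M : ℝ) ^ (η * B) := by
            rw [mul_pow, ← Real.rpow_natCast ((M : ℝ) ^ η) B, ← Real.rpow_mul hM0.le]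
        _ ≤ 4 ^ B * (M : ℝ) ^ (1 / 2 : ℝ) := by
            apply mul_le_mul_of_nonneg_left _ (by positivity)
            exact Real.rpow_le_rpow_of_exponent_le e1 hη3
        _ ≤ (M : ℝ) ^ (1 : ℝ) := e3
        _ = M := Real.rpow_one _
    exact_mod_cast h1
  obtain ⟨𝒜, hA1, hA2⟩ := hfam Z hZd M h4B
  obtain ⟨x, hx, hx2⟩ := hgen Z hZa 𝒜 ((Z : ℝ) ^ (s + 1 + 1)) (by positivity) (by
    intro q hq0 hq b
    obtain ⟨hqZ, he⟩ := hequid Z hZb q hq0 hq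
    exact he _ (hA2 q hq0 hqZ b).1 (hA2 q hq0 hqZ b).2)
  obtain ⟨hpos, hlow, hup⟩ := hA1 x hx
  obtain ⟨y, hy⟩ : ∃ y : Fin (s + 2) → ℕ, y = fun j => (x j).toNat := ⟨_, rfl⟩
  have hyx : ∀ j, ((y j : ℕ) : ℤ) = x j := by
    intro j
    rw [hy]
    exact Int.toNat_of_nonneg (hpos j).le
  have hsum : ((∑ j, y j ^ a j : ℕ) : ℤ) = ∑ j, x j ^ a j := by
    push_cast
    refine Finset.sum_congr rfl fun j _ => ?_
    rw [hyx]
  have hsumR : ((∑ j, y j ^ a j : ℕ) : ℝ) = ((∑ j, x j ^ a j : ℤ) : ℝ) := by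
    rw [← hsum]
    rfl
  have hn : M < ∑ j, y j ^ a j := by
    have : (M : ℤ) < ((∑ j, y j ^ a j : ℕ) : ℤ) := by rw [hsum]; exact hlow
    exact_mod_cast this
  refine ⟨y, fun j => ?_, hn, ?_, ?_⟩
  · have h1 := hpos j
    rw [← hyx j] at h1
    exact_mod_cast h1
  · rw [hsumR]
    refine hup.trans ?_
    have h1 : C * (Z : ℝ) ^ (s + 1 + 1) * (M : ℝ) ^ (ex a) ≤ (M : ℝ) ^ (ex a + ε) := by
      calc C * (Z : ℝ) ^ (s + 1 + 1) * (M : ℝ) ^ (ex a)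
          ≤ C * ((M : ℝ) ^ η) ^ (s + 1 + 1) * (M : ℝ) ^ (ex a) := by
            apply mul_le_mul_of_nonneg_right _ (by positivity)
            apply mul_le_mul_of_nonneg_left _ (by linarith)
            exact pow_le_pow_left₀ (by positivity) hZ1 _
        _ = C * (M : ℝ) ^ (η * (s + 2)) * (M : ℝ) ^ (ex a) := by
            rw [← Real.rpow_natCast ((M : ℝ) ^ η) (s + 1 + 1), ← Real.rpow_mul hM0.le]
            push_cast
            ring_nf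
        _ ≤ C * (M : ℝ) ^ (ε / 2) * (M : ℝ) ^ (ex a) := by
            apply mul_le_mul_of_nonneg_right _ (by positivity)
            apply mul_le_mul_of_nonneg_left _ (by linarith)
            exact Real.rpow_le_rpow_of_exponent_le e1 hη2
        _ = C * (M : ℝ) ^ (ex a + ε / 2) := by
            rw [mul_assoc, ← Real.rpow_add hM0, add_comm]
        _ ≤ _ := e4
    linarith
  · intro q hq
    by_contra hcon
    push Not at hcon
    have hffZ : κ * Pool.Agent.W147.PS.ff M ≤ c * Pool.Agent.H256R2.SC.ff Z := by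
      have h1 : (M : ℝ) ^ (η / 2) ≤ Z := by
        have h2 : (1 : ℝ) ≤ (M : ℝ) ^ (η / 2) := Real.one_le_rpow e1 (by linarith)
        linarith
      have h3 : (Z : ℝ) ≤ (M : ℝ) ^ 2 := by
        calc (Z : ℝ) ≤ (M : ℝ) ^ η := hZ1
          _ ≤ (M : ℝ) ^ (2 : ℝ) := Real.rpow_le_rpow_of_exponent_le e1 (by linarith)
          _ = (M : ℝ) ^ 2 := by norm_num
      have h4 := e6 Z h1 h3
      calc κ * Pool.Agent.W147.PS.ff M = c * (η / 2 / 32 * Pool.Agent.W147.PS.ff M) := by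
            rw [hκ]; ring
        _ ≤ c * Pool.Agent.W147.PS.ff Z := mul_le_mul_of_nonneg_left h4 hc.le
        _ = c * Pool.Agent.H256R2.SC.ff Z := rfl
    obtain ⟨p, hp, hpZ, hpd⟩ := hx2 ((q : ℤ) - ∑ j, x j ^ a j) (by
      have e : (((q : ℤ) - ∑ j, x j ^ a j : ℤ) : ℝ) = (q : ℝ) - ((∑ j, y j ^ a j : ℕ) : ℝ) := by
        rw [hsumR]
        push_cast
        ring
      rw [e]
      exact hcon.trans hffZ)
    have e : (∑ j, x j ^ a j) + ((q : ℤ) - ∑ j, x j ^ a j) = q := by ring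
    rw [e] at hpd
    have h7 : p = q := (Nat.prime_dvd_prime_iff_eq hp hq).mp (by exact_mod_cast hpd)
    rw [h7] at hpZ
    have h8 : (Z : ℝ) ^ (1 / 10 : ℝ) ≤ (M : ℝ) ^ (1 / 10 : ℝ) := by
      apply Real.rpow_le_rpow (by positivity) _ (by norm_num)
      calc (Z : ℝ) ≤ (M : ℝ) ^ η := hZ1
        _ ≤ (M : ℝ) ^ (1 : ℝ) := Real.rpow_le_rpow_of_exponent_le e1 (by linarith)
        _ = M := Real.rpow_one _
    rw [Real.rpow_one] at e8
    have h9 := (abs_le.mp hcon).1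
    have h10 : (M : ℝ) < ((∑ j, y j ^ a j : ℕ) : ℝ) := by exact_mod_cast hn
    linarith

end Pool.Agent.H814.SQ
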